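import Mathlib

/-!
Sums of distinct factorials that are perfect powers: a gap principle.
-/

set_option autoImplicit false

open Finset Nat

namespace Pool.Agent.DFA15

/-- `∑_{1 ≤ n ≤ M} n! < 2 M!` and `∑_{1 ≤ n ≤ M} n! < (M + 1)!` -/
theorem sum_fac (M : ℕ) : ∑ n ∈ Icc 1 M, n ! < 2 * M ! ∧ ∑ n ∈ Icc 1 M, n ! < (M + 1)! := by
  induction M with
  | zero => simp
  | succ M ih =>
    rw [← Finset.insert_Icc_right_eq_Icc_add_one (by omega), sum_insert (by simp)]
    have h1 : (M + 1 + 1)! = (M + 2) * (M + 1)! := Nat.factorial_succ (M + 1)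
    have h2 := Nat.factorial_pos (M + 1)
    refine ⟨by omega, ?_⟩
    rw [h1]
    nlinarith [ih.2]

/-- comparison of factorials -/
theorem fac_pow_le {k N M : ℕ} (hk : 1 ≤ k) (h : k * M ≤ (k - 1) * N) :
    M ! ^ k ≤ N ! ^ (k - 1) := by
  obtain ⟨j, rfl⟩ : ∃ j, k = j + 1 := ⟨k - 1, by omega⟩
  simp only [Nat.add_sub_cancel] at h ⊢
  rcases Nat.eq_zero_or_pos j with rfl | hj
  · have : M = 0 := by omega
    subst this
    simp
  have hMN : M ≤ N := by
    by_contra hlt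
    push Not at hlt
    have : j * N < j * M := Nat.mul_lt_mul_of_pos_left hlt hj
    nlinarith
  obtain ⟨t, rfl⟩ : ∃ t, N = M + t := ⟨N - M, by omega⟩
  have h1 : M ! * (M + 1) ^ t ≤ (M + t)! := Nat.factorial_mul_pow_le_factorial
  have h2 : M ≤ j * t := by nlinarith
  have h3 : M ! ≤ (M + 1) ^ (j * t) :=
    calc M ! ≤ M ^ M := Nat.factorial_le_pow M
      _ ≤ (M + 1) ^ M := Nat.pow_le_pow_left (by omega) M
      _ ≤ (M + 1) ^ (j * t) := Nat.pow_le_pow_right (by omega) h2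
  calc M ! ^ (j + 1) = M ! ^ j * M ! := pow_succ _ _
    _ ≤ M ! ^ j * (M + 1) ^ (j * t) := Nat.mul_le_mul_left _ h3
    _ = (M ! * (M + 1) ^ t) ^ j := by rw [mul_pow, ← pow_mul, mul_comm j t]
    _ ≤ (M + t)! ^ j := Nat.pow_le_pow_left h1 j

/-- a set of positive integers is determined by the sum of its factorials -/
theorem sum_inj (N : ℕ) : ∀ S S' : Finset ℕ, S ⊆ Icc 1 N → S' ⊆ Icc 1 N →
    ∑ n ∈ S, n ! = ∑ n ∈ S', n ! → S = S' := by
  induction N with
  | zero =>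
    intro S S' h h' _
    have e1 : S = ∅ := subset_empty.1 (by simpa using h)
    have e2 : S' = ∅ := subset_empty.1 (by simpa using h')
    rw [e1, e2]
  | succ N ih =>
    have low : ∀ S : Finset ℕ, S ⊆ Icc 1 (N + 1) → N + 1 ∉ S → S ⊆ Icc 1 N := by
      intro S hS hN x hx
      have := mem_Icc.1 (hS hx)
      rcases Nat.lt_or_ge N x with h | h
      · have : x = N + 1 := by omega
        exact absurd (this ▸ hx) hN
      · exact mem_Icc.2 ⟨this.1, h⟩
    have lt : ∀ S S' : Finset ℕ, S ⊆ Icc 1 (N + 1) → N + 1 ∉ S → N + 1 ∈ S' →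
        ∑ n ∈ S, n ! < ∑ n ∈ S', n ! := by
      intro S S' hS h1 h2
      calc ∑ n ∈ S, n ! ≤ ∑ n ∈ Icc 1 N, n ! := sum_le_sum_of_subset (low S hS h1)
        _ < (N + 1)! := (sum_fac N).2
        _ ≤ ∑ n ∈ S', n ! := single_le_sum (f := fun n => n !) (fun _ _ => Nat.zero_le _) h2
    intro S S' hS hS' he
    by_cases h1 : N + 1 ∈ S <;> by_cases h2 : N + 1 ∈ S'
    · have e1 := sum_erase_add S (fun n => n !) h1
      have e2 := sum_erase_add S' (fun n => n !) h2
      have e3 := ih (S.erase (N + 1)) (S'.erase (N + 1))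
        (low _ ((erase_subset _ _).trans hS) (notMem_erase _ _))
        (low _ ((erase_subset _ _).trans hS') (notMem_erase _ _)) (by omega)
      rw [← insert_erase h1, ← insert_erase h2, e3]
    · exact absurd he (lt S' S hS' h2 h1).ne'
    · exact absurd he (lt S S' hS h1 h2).ne
    · exact ih S S' (low S hS h1) (low S' hS' h2) he

/-- a sum over `S` is the sum over the part above `M` plus the part below -/
theorem sum_split (S : Finset ℕ) (M : ℕ) :
    ∑ n ∈ S, n ! = ∑ n ∈ S.filter (fun n => M < n), n ! +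
      ∑ n ∈ S.filter (fun n => ¬ M < n), n ! := (sum_filter_add_sum_filter_not _ _ _).symm

/-- **Gap principle.** -/
theorem gap {k N M a b : ℕ} {S S' : Finset ℕ} (hk : 2 ≤ k) (hkM : k * M ≤ (k - 1) * N)
    (hS' : S' ⊆ Icc 1 N) (hNS : N ∈ S)
    (he : S.filter (fun n => M < n) = S'.filter (fun n => M < n))
    (ha : ∑ n ∈ S, n ! = a ^ k) (hb : ∑ n ∈ S', n ! = b ^ k) : b ≤ a := by
  by_contra hlt
  push Not at hlt
  have h1 : N ! ≤ a ^ k := by
    rw [← ha]
    exact single_le_sum (f := fun n => n !) (fun _ _ => Nat.zero_le _) hNS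
  have h2 : M ! ≤ a ^ (k - 1) := by
    have h3 : M ! ^ k ≤ (a ^ (k - 1)) ^ k :=
      calc M ! ^ k ≤ N ! ^ (k - 1) := fac_pow_le (by omega) hkM
        _ ≤ (a ^ k) ^ (k - 1) := Nat.pow_le_pow_left h1 _
        _ = (a ^ (k - 1)) ^ k := by rw [← pow_mul, ← pow_mul, mul_comm]
    exact (Nat.pow_le_pow_iff_left (by omega)).1 h3
  have h4 : a ^ k + 2 * a ^ (k - 1) ≤ b ^ k := by
    obtain ⟨j, rfl⟩ : ∃ j, k = j + 2 := ⟨k - 2, by omega⟩
    have e : j + 2 - 1 = j + 1 := rfl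
    rw [e]
    calc a ^ (j + 2) + 2 * a ^ (j + 1) = a ^ j * (a * a + 2 * a) := by ring
      _ ≤ a ^ j * ((a + 1) * (a + 1)) := Nat.mul_le_mul_left _ (by nlinarith)
      _ ≤ b ^ j * (b * b) := Nat.mul_le_mul (Nat.pow_le_pow_left hlt.le _)
          (Nat.mul_le_mul hlt hlt)
      _ = b ^ (j + 2) := by ring
  have h5 : ∑ n ∈ S'.filter (fun n => ¬ M < n), n ! < 2 * M ! := by
    refine lt_of_le_of_lt (sum_le_sum_of_subset ?_) (sum_fac M).1
    intro x hx
    rw [mem_filter] at hx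
    exact mem_Icc.2 ⟨(mem_Icc.1 (hS' hx.1)).1, not_lt.1 hx.2⟩
  have h6 := sum_split S M
  have h7 := sum_split S' M
  rw [← he] at h7
  omega

/-- **Rigidity.** A set whose factorial sum is a `k`-th power is determined by its part above
`M`, if `k M ≤ (k - 1) N`, `N` its largest element. -/
theorem rigid {k N M a b : ℕ} {S S' : Finset ℕ} (hk : 2 ≤ k) (hkM : k * M ≤ (k - 1) * N)
    (hS : S ⊆ Icc 1 N) (hS' : S' ⊆ Icc 1 N) (hNS : N ∈ S) (hNS' : N ∈ S')
    (he : S.filter (fun n => M < n) = S'.filter (fun n => M < n))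
    (ha : ∑ n ∈ S, n ! = a ^ k) (hb : ∑ n ∈ S', n ! = b ^ k) : S = S' := by
  have h1 : b ≤ a := gap hk hkM hS' hNS he ha hb
  have h2 : a ≤ b := gap hk hkM hS hNS' he.symm hb ha
  refine sum_inj N S S' hS hS' ?_
  rw [ha, hb, le_antisymm h2 h1]

open Classical in
/-- **Count.** Of the `2^(N-1)` sets with largest element `N` at most `2^(⌈N/k⌉ - 1)` have a
`k`-th power as factorial sum. -/
theorem top_le (k N : ℕ) (hk : 2 ≤ k) (hN : 1 ≤ N) :
    ((Icc 1 N).powerset.filter (fun S => N ∈ S ∧ ∃ m : ℕ, ∑ n ∈ S, n ! = m ^ k)).card ≤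
      2 ^ ((N + k - 1) / k - 1) := by
  set t := (N + k - 1) / k with ht
  have ht1 : N ≤ k * t := by
    have := Nat.lt_mul_div_succ (N + k - 1) (show 0 < k by omega)
    rw [← ht, mul_add, mul_one] at this
    omega
  have htN : t ≤ N := by
    rw [ht]
    refine Nat.div_le_of_le_mul ?_
    obtain ⟨k', rfl⟩ : ∃ k', k = k' + 1 := ⟨k - 1, by omega⟩
    obtain ⟨N', rfl⟩ : ∃ N', N = N' + 1 := ⟨N - 1, by omega⟩
    have e : (k' + 1) * (N' + 1) = k' * N' + (N' + 1 + (k' + 1) - 1) := by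
      have : N' + 1 + (k' + 1) - 1 = N' + k' + 1 := by omega
      rw [this]; ring
    omega
  have ht0 : 1 ≤ t := by
    rcases Nat.eq_zero_or_pos t with h | h
    · rw [h] at ht1; omega
    · exact h
  set M := N - t with hM
  have hkM : k * M ≤ (k - 1) * N := by
    have e1 : k * M = k * N - k * t := by rw [hM, Nat.mul_sub]
    have e2 : (k - 1) * N = k * N - N := by rw [Nat.sub_mul, one_mul]
    rw [e1, e2]
    omega
  have hcard : ((Ioo M N).powerset).card = 2 ^ (t - 1) := by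
    rw [card_powerset, Nat.card_Ioo]
    congr 1
    omega
  rw [← hcard]
  refine card_le_card_of_injOn (fun S : Finset ℕ => S.filter (fun n => M < n ∧ n < N)) ?_ ?_
  · intro S hS
    rw [mem_coe, mem_filter, mem_powerset] at hS
    rw [mem_coe, mem_powerset]
    intro x hx
    rw [mem_filter] at hx
    exact mem_Ioo.2 hx.2
  · intro S hS S' hS' he
    rw [mem_coe, mem_filter, mem_powerset] at hS hS'
    obtain ⟨a, ha⟩ := hS.2.2
    obtain ⟨b, hb⟩ := hS'.2.2
    refine rigid hk hkM hS.1 hS'.1 hS.2.1 hS'.2.1 ?_ ha hb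
    ext x
    have h1 := Finset.ext_iff.1 he x
    simp only [mem_filter] at h1 ⊢
    constructor
    · rintro ⟨hx, hx2⟩
      rcases lt_or_ge x N with h | h
      · exact ⟨(h1.1 ⟨hx, hx2, h⟩).1, hx2⟩
      · have : x = N := le_antisymm (mem_Icc.1 (hS.1 hx)).2 h
        exact ⟨this ▸ hS'.2.1, hx2⟩
    · rintro ⟨hx, hx2⟩
      rcases lt_or_ge x N with h | h
      · exact ⟨(h1.2 ⟨hx, hx2, h⟩).1, hx2⟩
      · have : x = N := le_antisymm (mem_Icc.1 (hS'.1 hx)).2 h
        exact ⟨this ▸ hS.2.1, hx2⟩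

end Pool.Agent.DFA15
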