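import Mathlib
import Pool.Agent.DFA15.Core
import Pool.Agent.DFP.Sums

/-! # Counting powers among the sums of distinct factorials -/

set_option autoImplicit false

namespace Pool.Agent.DFA15

open Finset

open scoped Classical

lemma sum_geom (k c : ℕ) (hk : 1 ≤ k) :
    ∑ j ∈ range (k * c), 2 ^ (j / k) + k = k * 2 ^ c := by
  induction c with
  | zero => simp
  | succ c ih =>
    rw [Nat.mul_succ, sum_range_add, pow_succ]
    have h : ∑ x ∈ range k, 2 ^ ((k * c + x) / k) = k * 2 ^ c := by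
      rw [sum_congr rfl (g := fun _ => 2 ^ c)]
      · simp
      · intro x hx
        rw [Nat.mul_add_div (by omega), Nat.div_eq_of_lt (mem_range.1 hx), add_zero]
    rw [h]
    nlinarith

/-- at most `k * 2 ^ ⌈N / k⌉` of the sums are `k`-th powers -/
theorem all_le (k N : ℕ) (hk : 2 ≤ k) :
    ((Icc 1 N).powerset.filter (fun S : Finset ℕ => ∃ m : ℕ, ∑ n ∈ S, n.factorial = m ^ k)).card ≤
      k * 2 ^ ((N + k - 1) / k) := by
  have hsub : (Icc 1 N).powerset.filter (fun S : Finset ℕ => ∃ m : ℕ, ∑ n ∈ S, n.factorial = m ^ k) ⊆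
      insert ∅ ((range N).biUnion fun j => (Icc 1 (j + 1)).powerset.filter
        (fun S : Finset ℕ => j + 1 ∈ S ∧ ∃ m : ℕ, ∑ n ∈ S, n.factorial = m ^ k)) := by
    intro S hS
    rw [mem_filter, mem_powerset] at hS
    rw [mem_insert, mem_biUnion]
    rcases S.eq_empty_or_nonempty with h | h
    · exact Or.inl h
    · right
      have h1 := S.max'_mem h
      have h2 := mem_Icc.1 (hS.1 h1)
      refine ⟨S.max' h - 1, mem_range.2 (by omega), ?_⟩
      rw [mem_filter, mem_powerset, Nat.sub_add_cancel h2.1]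
      refine ⟨fun n hn => mem_Icc.2 ⟨(mem_Icc.1 (hS.1 hn)).1, S.le_max' n hn⟩, h1, hS.2⟩
  refine (card_le_card hsub).trans ((card_insert_le _ _).trans ?_)
  have h3 : ((range N).biUnion fun j => (Icc 1 (j + 1)).powerset.filter
        (fun S : Finset ℕ => j + 1 ∈ S ∧ ∃ m : ℕ, ∑ n ∈ S, n.factorial = m ^ k)).card ≤
      ∑ j ∈ range N, 2 ^ (j / k) := by
    refine card_biUnion_le.trans (sum_le_sum fun j _ => ?_)
    refine (top_le k (j + 1) hk (by omega)).trans (le_of_eq ?_)
    have : (j + 1 + k - 1) / k = j / k + 1 := by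
      rw [show j + 1 + k - 1 = j + k by omega, Nat.add_div_right _ (by omega)]
    rw [this, Nat.add_sub_cancel]
  have h4 : ∑ j ∈ range N, 2 ^ (j / k) ≤ ∑ j ∈ range (k * ((N + k - 1) / k)), 2 ^ (j / k) := by
    refine sum_le_sum_of_subset (range_mono ?_)
    have h5 := Nat.div_add_mod (N + k - 1) k
    have h6 := Nat.mod_lt (N + k - 1) (show k > 0 by omega)
    omega
  have h7 := sum_geom k ((N + k - 1) / k) (by omega)
  omega

lemma sum_le (N : ℕ) : ∑ n ∈ Icc 1 N, n.factorial < (N + 1).factorial := by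
  induction N with
  | zero => simp
  | succ N ih =>
    rw [← insert_Icc_right_eq_Icc_add_one (by omega), sum_insert (by simp)]
    have h1 : (N + 1 + 1).factorial = (N + 2) * (N + 1).factorial := rfl
    rw [h1]
    have h2 := Nat.factorial_pos (N + 1)
    nlinarith

lemma fact_le (N : ℕ) (hN : 1 ≤ N) : (N + 1).factorial ≤ 2 ^ (N ^ 2) := by
  induction N, hN using Nat.le_induction with
  | base => decide
  | succ N hN ih =>
    have h1 : (N + 1 + 1).factorial = (N + 2) * (N + 1).factorial := rfl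
    rw [h1, show (N + 1) ^ 2 = (2 * N + 1) + N ^ 2 by ring, pow_add]
    refine Nat.mul_le_mul ?_ ih
    have h2 : N + 2 ≤ 2 ^ (N + 1) := Nat.lt_two_pow_self (n := N + 1)
    exact h2.trans (Nat.pow_le_pow_right (by norm_num) (by omega))

/-- all exponents together -/
theorem all_exponents (N : ℕ) :
    ((Icc 1 N).powerset.filter
      (fun S : Finset ℕ => ∃ k, 2 ≤ k ∧ ∃ m : ℕ, ∑ n ∈ S, n.factorial = m ^ k)).card ≤
      2 * 2 ^ ((N + 1) / 2) + N ^ 4 * 2 ^ ((N + 2) / 3) := by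
  have hsub : (Icc 1 N).powerset.filter
      (fun S : Finset ℕ => ∃ k, 2 ≤ k ∧ ∃ m : ℕ, ∑ n ∈ S, n.factorial = m ^ k) ⊆
      (Icc 1 N).powerset.filter (fun S : Finset ℕ => ∃ m : ℕ, ∑ n ∈ S, n.factorial = m ^ 2) ∪
      ((Icc 3 (N ^ 2)).biUnion fun k => (Icc 1 N).powerset.filter
        (fun S : Finset ℕ => ∃ m : ℕ, ∑ n ∈ S, n.factorial = m ^ k)) := by
    intro S hS
    rw [mem_filter] at hS
    obtain ⟨hS1, k, hk, m, hm⟩ := hS
    rw [mem_union, mem_filter, mem_biUnion]
    rcases Nat.lt_or_ge m 2 with h | h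
    · left
      refine ⟨hS1, m, ?_⟩
      rw [hm]
      interval_cases m
      · rw [zero_pow (by omega), zero_pow (by omega)]
      · simp
    · rcases Nat.lt_or_ge k 3 with h3 | h3
      · left
        have : k = 2 := by omega
        subst this
        exact ⟨hS1, m, hm⟩
      · right
        refine ⟨k, mem_Icc.2 ⟨h3, ?_⟩, mem_filter.2 ⟨hS1, m, hm⟩⟩
        have h4 : ∑ n ∈ S, n.factorial < (N + 1).factorial :=
          lt_of_le_of_lt (sum_le_sum_of_subset (mem_powerset.1 hS1)) (sum_le N)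
        rcases Nat.eq_zero_or_pos N with h0 | h0
        · subst h0
          rw [hm] at h4
          have : 1 < m ^ k := Nat.one_lt_pow (by omega) (by omega)
          simp at h4
          omega
        · have h5 : 2 ^ k < 2 ^ (N ^ 2) := by
            calc 2 ^ k ≤ m ^ k := Nat.pow_le_pow_left h k
              _ = ∑ n ∈ S, n.factorial := hm.symm
              _ < (N + 1).factorial := h4
              _ ≤ _ := fact_le N h0
          exact ((Nat.pow_lt_pow_iff_right (by norm_num)).1 h5).le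
  refine (card_le_card hsub).trans ((card_union_le _ _).trans (Nat.add_le_add ?_ ?_))
  · exact all_le 2 N le_rfl
  · refine card_biUnion_le.trans ?_
    have h6 : ∀ k ∈ Icc 3 (N ^ 2), ((Icc 1 N).powerset.filter
        (fun S : Finset ℕ => ∃ m : ℕ, ∑ n ∈ S, n.factorial = m ^ k)).card ≤ N ^ 2 * 2 ^ ((N + 2) / 3) := by
      intro k hk
      rw [mem_Icc] at hk
      refine (all_le k N (by omega)).trans (Nat.mul_le_mul hk.2 ?_)
      refine Nat.pow_le_pow_right (by norm_num) ?_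
      have h7 : (N + k - 1) / k ≤ (N + 2) / 3 := by
        rw [Nat.div_le_iff_le_mul_add_pred (by omega)]
        have h8 := Nat.div_add_mod (N + 2) 3
        have h9 := Nat.mod_lt (N + 2) (show 3 > 0 by omega)
        have h10 : 3 * ((N + 2) / 3) ≤ k * ((N + 2) / 3) := Nat.mul_le_mul_right _ hk.1
        omega
      exact h7
    refine (sum_le_card_nsmul _ _ _ h6).trans ?_
    rw [smul_eq_mul, ← mul_assoc]
    refine Nat.mul_le_mul_right _ ?_
    have h11 : (Icc 3 (N ^ 2)).card ≤ N ^ 2 := by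
      rw [Nat.card_Icc]
      omega
    calc (Icc 3 (N ^ 2)).card * N ^ 2 ≤ N ^ 2 * N ^ 2 := Nat.mul_le_mul_right _ h11
      _ = N ^ 4 := by ring

/-- the elements of the problem's set `A`: sums of factorials of distinct positive integers -/
def FS (a : ℕ) : Prop := ∃ S : Finset ℕ, 0 ∉ S ∧ ∑ n ∈ S, n.factorial = a

lemma mem_Icc_of_sum_lt {S : Finset ℕ} {N : ℕ} (h0 : 0 ∉ S)
    (h : ∑ n ∈ S, n.factorial < (N + 1).factorial) : S ⊆ Icc 1 N := by
  intro n hn
  rw [mem_Icc]
  refine ⟨Nat.pos_of_ne_zero fun h1 => h0 (h1 ▸ hn), ?_⟩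
  by_contra hcon
  have h1 : (N + 1).factorial ≤ n.factorial := Nat.factorial_le (by omega)
  have h2 : n.factorial ≤ ∑ n ∈ S, n.factorial :=
    single_le_sum (f := fun n : ℕ => n.factorial) (fun _ _ => Nat.zero_le _) hn
  omega

lemma set_le (N B : ℕ) (P : ℕ → Prop)
    (h : ((Icc 1 N).powerset.filter (fun S : Finset ℕ => P (∑ n ∈ S, n.factorial))).card ≤ B) :
    {a : ℕ | a < (N + 1).factorial ∧ FS a ∧ P a}.ncard ≤ B := by
  refine le_trans ?_ h
  rw [← Set.ncard_coe_finset]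
  have hsub : {a : ℕ | a < (N + 1).factorial ∧ FS a ∧ P a} ⊆
      (fun S : Finset ℕ => ∑ n ∈ S, n.factorial) ''
        (((Icc 1 N).powerset.filter (fun S : Finset ℕ => P (∑ n ∈ S, n.factorial)) :
          Finset (Finset ℕ)) : Set (Finset ℕ)) := by
    rintro a ⟨ha, ⟨S, h0, rfl⟩, hP⟩
    refine ⟨S, ?_, rfl⟩
    rw [mem_coe, mem_filter, mem_powerset]
    exact ⟨mem_Icc_of_sum_lt h0 ha, hP⟩
  refine (Set.ncard_le_ncard hsub ?_).trans (Set.ncard_image_le (finite_toSet _))
  exact (finite_toSet _).image _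

/-- `A` has exactly `2 ^ N` elements below `(N + 1)!` -/
theorem ncard_FS (N : ℕ) : {a : ℕ | a < (N + 1).factorial ∧ FS a}.ncard = 2 ^ N := by
  have h1 : {a : ℕ | a < (N + 1).factorial ∧ FS a} =
      (fun S : Finset ℕ => ∑ n ∈ S, n.factorial) ''
        (((Icc 1 N).powerset : Finset (Finset ℕ)) : Set (Finset ℕ)) := by
    ext a
    simp only [Set.mem_ofPred_eq, Set.mem_image, mem_coe, mem_powerset]
    constructor
    · rintro ⟨ha, S, h0, rfl⟩
      exact ⟨S, mem_Icc_of_sum_lt h0 ha, rfl⟩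
    · rintro ⟨S, hS, rfl⟩
      exact ⟨lt_of_le_of_lt (sum_le_sum_of_subset hS) (sum_le N), S,
        fun h => by simpa using hS h, rfl⟩
  rw [h1, Set.InjOn.ncard_image, Set.ncard_coe_finset, card_powerset, Nat.card_Icc,
    Nat.add_sub_cancel]
  intro S hS T hT h
  refine Pool.Agent.DFP.sum_inj ?_ ?_ h
  · exact fun h0 => by simpa using (mem_powerset.1 (mem_coe.1 hS)) h0
  · exact fun h0 => by simpa using (mem_powerset.1 (mem_coe.1 hT)) h0

/-- `A` has at most `k * 2 ^ ⌈N / k⌉` `k`-th powers below `(N + 1)!` -/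
theorem ncard_pow_le (k N : ℕ) (hk : 2 ≤ k) :
    {a : ℕ | a < (N + 1).factorial ∧ FS a ∧ ∃ m : ℕ, a = m ^ k}.ncard ≤
      k * 2 ^ ((N + k - 1) / k) :=
  set_le N _ (fun a => ∃ m : ℕ, a = m ^ k) (all_le k N hk)

/-- perfect powers of all exponents in `A` below `(N + 1)!` -/
theorem ncard_powers_le (N : ℕ) :
    {a : ℕ | a < (N + 1).factorial ∧ FS a ∧ ∃ k, 2 ≤ k ∧ ∃ m : ℕ, a = m ^ k}.ncard ≤
      2 * 2 ^ ((N + 1) / 2) + N ^ 4 * 2 ^ ((N + 2) / 3) :=
  set_le N _ (fun a => ∃ k, 2 ≤ k ∧ ∃ m : ℕ, a = m ^ k) (all_exponents N)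

end Pool.Agent.DFA15
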